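import Pool.Agent.X145.Clue.Defs

set_option autoImplicit false
open Filter Topology

namespace Pool.Agent.X145.Clue

section
variable {V : Type} [Fintype V] [DecidableEq V]

theorem sum_bool_fn (c : V → Bool → ℝ) :
    ∑ ω : V → Bool, ∏ v, c v (ω v) = ∏ v, (c v true + c v false) := by
  have h := Finset.prod_univ_sum (fun _ : V => (Finset.univ : Finset Bool)) c
  rw [Fintype.piFinset_univ] at h
  rw [← h]
  refine Finset.prod_congr rfl fun v _ => ?_
  simp

theorem ex_prod (p : ℝ) (c : V → Bool → ℝ) :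
    ex p (fun ω => ∏ v, c v (ω v)) = ∏ v, (p * c v true + (1 - p) * c v false) := by
  unfold ex weight
  have h : ∀ ω : V → Bool, (∏ v, if ω v = true then p else 1 - p) * ∏ v, c v (ω v) =
      ∏ v, ((if ω v = true then p else 1 - p) * c v (ω v)) := by
    intro ω
    rw [← Finset.prod_mul_distrib]
  rw [Finset.sum_congr rfl fun ω _ => h ω,
    sum_bool_fn (fun v x => (if x = true then p else 1 - p) * c v x)]
  refine Finset.prod_congr rfl fun v _ => ?_
  simp

theorem ex_one (p : ℝ) : ex p (fun _ : V → Bool => (1 : ℝ)) = 1 := by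
  have := ex_prod (V := V) p (fun _ _ => 1)
  simpa using this

theorem ex_add (p : ℝ) (f g : (V → Bool) → ℝ) :
    ex p (fun ω => f ω + g ω) = ex p f + ex p g := by
  unfold ex
  rw [← Finset.sum_add_distrib]
  exact Finset.sum_congr rfl fun ω _ => by ring

theorem ex_sub (p : ℝ) (f g : (V → Bool) → ℝ) :
    ex p (fun ω => f ω - g ω) = ex p f - ex p g := by
  unfold ex
  rw [← Finset.sum_sub_distrib]
  exact Finset.sum_congr rfl fun ω _ => by ring

theorem ex_mul (p c : ℝ) (f : (V → Bool) → ℝ) : ex p (fun ω => c * f ω) = c * ex p f := by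
  unfold ex
  rw [Finset.mul_sum]
  exact Finset.sum_congr rfl fun ω _ => by ring

theorem ex_const (p c : ℝ) : ex p (fun _ : V → Bool => c) = c := by
  have := ex_mul (V := V) p c (fun _ => 1)
  rw [ex_one, mul_one] at this
  simpa using this

theorem ex_congr (p : ℝ) {f g : (V → Bool) → ℝ} (h : ∀ ω, f ω = g ω) : ex p f = ex p g := by
  unfold ex
  exact Finset.sum_congr rfl fun ω _ => by rw [h]

theorem weight_nonneg (p : ℝ) (h0 : 0 ≤ p) (h1 : p ≤ 1) (ω : V → Bool) : 0 ≤ weight p ω := by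
  unfold weight
  refine Finset.prod_nonneg fun v _ => ?_
  split_ifs <;> linarith

theorem ex_mono (p : ℝ) (h0 : 0 ≤ p) (h1 : p ≤ 1) {f g : (V → Bool) → ℝ} (h : ∀ ω, f ω ≤ g ω) :
    ex p f ≤ ex p g := by
  unfold ex
  exact Finset.sum_le_sum fun ω _ => mul_le_mul_of_nonneg_left (h ω) (weight_nonneg p h0 h1 ω)

end

section blocks
variable {ι : Type} [Fintype ι] [DecidableEq ι] {W : ι → Type} [∀ i, Fintype (W i)]
  [∀ i, DecidableEq (W i)]

/-- factorisation over blocks -/
theorem ex_blocks (p : ℝ) (F : ∀ i, (W i → Bool) → ℝ) :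
    ex p (fun ω : (Σ i, W i) → Bool => ∏ i, F i (fun w => ω ⟨i, w⟩)) = ∏ i, ex p (F i) := by
  unfold ex
  have h1 : ∀ ω : (Σ i, W i) → Bool, weight p ω * ∏ i, F i (fun w => ω ⟨i, w⟩) =
      ∏ i, (weight p (fun w => ω ⟨i, w⟩) * F i (fun w => ω ⟨i, w⟩)) := by
    intro ω
    unfold weight
    rw [Fintype.prod_sigma, ← Finset.prod_mul_distrib]
  rw [Finset.sum_congr rfl fun ω _ => h1 ω]
  have h2 := Finset.prod_univ_sum (fun i : ι => (Finset.univ : Finset (W i → Bool)))
    (fun i x => weight p x * F i x)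
  rw [Fintype.piFinset_univ] at h2
  rw [h2]
  let e : ((Σ i, W i) → Bool) ≃ (∀ i, W i → Bool) := Equiv.piCurry (fun _ _ => Bool)
  exact Fintype.sum_equiv e _ _ fun ω => rfl

end blocks

theorem abs_prod_sub_prod {ι : Type} (s : Finset ι) (x y : ι → ℝ) (hx : ∀ i ∈ s, |x i| ≤ 1)
    (hy : ∀ i ∈ s, |y i| ≤ 1) : |∏ i ∈ s, x i - ∏ i ∈ s, y i| ≤ ∑ i ∈ s, |x i - y i| := by
  classical
  induction s using Finset.induction_on with
  | empty => simp
  | insert a s ha ih =>
    rw [Finset.prod_insert ha, Finset.prod_insert ha, Finset.sum_insert ha]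
    have h1 := ih (fun i hi => hx i (Finset.mem_insert_of_mem hi))
      (fun i hi => hy i (Finset.mem_insert_of_mem hi))
    have h2 : x a * ∏ i ∈ s, x i - y a * ∏ i ∈ s, y i =
        (x a - y a) * ∏ i ∈ s, x i + y a * (∏ i ∈ s, x i - ∏ i ∈ s, y i) := by ring
    rw [h2]
    have h3 : |∏ i ∈ s, x i| ≤ 1 := by
      rw [Finset.abs_prod]
      exact Finset.prod_le_one (fun i _ => abs_nonneg _) fun i hi => hx i (Finset.mem_insert_of_mem hi)
    calc _ ≤ |(x a - y a) * ∏ i ∈ s, x i| + |y a * (∏ i ∈ s, x i - ∏ i ∈ s, y i)| := abs_add_le _ _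
      _ = |x a - y a| * |∏ i ∈ s, x i| + |y a| * |∏ i ∈ s, x i - ∏ i ∈ s, y i| := by
        rw [abs_mul, abs_mul]
      _ ≤ |x a - y a| * 1 + 1 * ∑ i ∈ s, |x i - y i| := by
        have := hy a (Finset.mem_insert_self a s)
        gcongr
      _ = _ := by ring

end Pool.Agent.X145.Clue
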