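import Mathlib

set_option autoImplicit false
open Filter Topology

namespace Pool.Agent.X145.Clue

section
variable {V : Type} [Fintype V] [DecidableEq V]

/-- Probability of the configuration `ω` when the coordinates are independent and equal to `true`
(that is `+1`) with probability `p`. -/
noncomputable def weight (p : ℝ) (ω : V → Bool) : ℝ := ∏ v, if ω v then p else 1 - p

/-- Expectation when the coordinates are independent and equal to `true` with probability `p`. A
subset of `V` is coded by its indicator `V → Bool`; so this is also the expectation over the random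
subset `B^p` containing each element independently with probability `p`. -/
noncomputable def ex (p : ℝ) (f : (V → Bool) → ℝ) : ℝ := ∑ ω : V → Bool, weight p ω * f ω

/-- `ω` on `U` and `η` outside `U`. -/
def mix (U ω η : V → Bool) : V → Bool := fun v => if U v then ω v else η v

/-- Conditional expectation of `f` given the coordinates in `U`. -/
noncomputable def cond (p : ℝ) (f : (V → Bool) → ℝ) (U ω : V → Bool) : ℝ :=
  ex p (fun η => f (mix U ω η))

/-- Variance. -/
noncomputable def vari (p : ℝ) (f : (V → Bool) → ℝ) : ℝ := ex p (fun ω => f ω ^ 2) - ex p f ^ 2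

/-- `clue(f | U) = Var(E[f | F_U]) / Var f`. -/
noncomputable def clue (p : ℝ) (f : (V → Bool) → ℝ) (U : V → Bool) : ℝ :=
  vari p (cond p f U) / vari p f

/-- `E[clue(f | B^δ)]`. -/
noncomputable def meanClue (p : ℝ) (f : (V → Bool) → ℝ) (δ : ℝ) : ℝ := ex δ (fun U => clue p f U)

/-- Relative size `|U| / |V|`. -/
noncomputable def relSize (U : V → Bool) : ℝ :=
  ((Finset.univ.filter (fun v => U v = true)).card : ℝ) / Fintype.card V

/-- The clue profile `cp_f(s)`. -/
noncomputable def clueProfile (p : ℝ) (f : (V → Bool) → ℝ) (s : ℝ) : ℝ :=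
  sInf {u : ℝ | ∃ U : V → Bool, relSize U ≤ u ∧ s ≤ clue p f U}

/-- `E[f(ω) f(ω^ε)] - E[f]²`, where `ω^ε` keeps each coordinate with probability `1 - ε` and
resamples it otherwise. -/
noncomputable def noiseCov (p : ℝ) (f : (V → Bool) → ℝ) (ε : ℝ) : ℝ :=
  ex (1 - ε) (fun S => ex p (fun ω => ex p (fun η => f ω * f (mix S ω η)))) - ex p f ^ 2

end

/-- A sequence of Boolean (`±1` valued), non-constant, monotone functions on growing finite sets with
product measures (probability `p n ∈ (0,1)` of `+1`). -/
structure MonotoneSequence where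
  /-- the index sets `V_n` -/
  V : ℕ → Type
  /-- finiteness -/
  fin : ∀ n, Fintype (V n)
  /-- decidable equality (no mathematical content) -/
  dec : ∀ n, DecidableEq (V n)
  /-- the bias -/
  p : ℕ → ℝ
  /-- the functions -/
  f : ∀ n, (V n → Bool) → ℝ
  p_pos : ∀ n, 0 < p n
  p_lt : ∀ n, p n < 1
  card_tendsto : Tendsto (fun n => @Fintype.card (V n) (fin n)) atTop atTop
  boolean : ∀ n ω, f n ω = 1 ∨ f n ω = -1
  nonconst : ∀ n, ∃ ω ω', f n ω ≠ f n ω'
  mono : ∀ n ω ω', (∀ v, ω v = true → ω' v = true) → f n ω ≤ f n ω'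

attribute [instance] MonotoneSequence.fin MonotoneSequence.dec

/-- Noise sensitivity. -/
def NoiseSensitive (F : MonotoneSequence) : Prop :=
  ∀ ε : ℝ, 0 < ε → ε < 1 → Tendsto (fun n => noiseCov (F.p n) (F.f n) ε) atTop (𝓝 0)

end Pool.Agent.X145.Clue
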