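import Pool.Agent.X145.Clue.Tribes

set_option autoImplicit false
open Filter Topology

namespace Pool.Agent.X145.Clue

/-- block sizes: `2^(n+1)` tribes of size `n+1` and one huge block -/
def bigL (n : ℕ) : ℕ := (2 ^ (n + 1) * (n + 1)) * (n + 2) ^ (2 ^ (n + 1) * (n + 1) + 2)

def ka (n : ℕ) : Option (Fin (2 ^ (n + 1))) → ℕ
  | some _ => n + 1
  | none => bigL n

theorem bigL_ge (n : ℕ) : n + 1 ≤ bigL n := by
  unfold bigL
  have h1 : 1 ≤ 2 ^ (n + 1) := Nat.one_le_two_pow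
  have h2 : 1 ≤ (n + 2) ^ (2 ^ (n + 1) * (n + 1) + 2) := Nat.one_le_pow _ _ (by omega)
  calc n + 1 = (1 * (n + 1)) * 1 := by ring
    _ ≤ _ := Nat.mul_le_mul (Nat.mul_le_mul_right _ h1) h2

theorem ka_pos (n : ℕ) (o : Option (Fin (2 ^ (n + 1)))) : 1 ≤ ka n o := by
  cases o with
  | none =>
    have := bigL_ge n
    simp only [ka]
    omega
  | some i =>
    simp only [ka]
    omega

theorem prod_opt {m : ℕ} (f : Option (Fin m) → ℝ) : ∏ o, f o = f none * ∏ i : Fin m, f (some i) := by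
  rw [Fintype.prod_option]

/-- tribes factor -/
noncomputable def PT (n : ℕ) : ℝ := (1 - (1 / 2 : ℝ) ^ (n + 1)) ^ (2 ^ (n + 1))
noncomputable def ta (n : ℕ) : ℝ := (1 / 2 : ℝ) ^ bigL n

theorem ta_pos (n : ℕ) : 0 < ta n := by
  unfold ta
  positivity

theorem ta_le (n : ℕ) : ta n ≤ (1 / 2) ^ (n + 1) := by
  unfold ta
  exact pow_le_pow_of_le_one (by norm_num) (by norm_num) (bigL_ge n)

theorem ta_le_half (n : ℕ) : ta n ≤ 1 / 2 := by
  refine (ta_le n).trans ?_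
  calc (1 / 2 : ℝ) ^ (n + 1) ≤ (1 / 2) ^ 1 := pow_le_pow_of_le_one (by norm_num) (by norm_num) (by omega)
    _ = 1 / 2 := by norm_num

theorem prod_ka (n : ℕ) : ∏ o, (1 - (1 / 2 : ℝ) ^ ka n o) = PT n * (1 - ta n) := by
  rw [prod_opt]
  simp only [ka]
  rw [Finset.prod_const, Finset.card_univ, Fintype.card_fin, mul_comm]
  rfl

theorem PT_low (n : ℕ) : 1 / 4 ≤ PT n := by
  unfold PT
  have h1 : (1 - (1 / 2 : ℝ) ^ (n + 1)) ^ (2 ^ (n + 1)) = ((1 - (1 / 2 : ℝ) ^ (n + 1)) ^ (2 ^ n)) ^ 2 := by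
    rw [← pow_mul, ← pow_succ]
  have h2 : (1 : ℝ) / 2 ≤ (1 - (1 / 2 : ℝ) ^ (n + 1)) ^ (2 ^ n) := by
    have h3 := one_add_mul_le_pow (a := -(1 / 2 : ℝ) ^ (n + 1)) (by
      have : (1 / 2 : ℝ) ^ (n + 1) ≤ 1 := pow_le_one₀ (by norm_num) (by norm_num)
      linarith) (2 ^ n)
    have h4 : ((2 ^ n : ℕ) : ℝ) * (1 / 2 : ℝ) ^ (n + 1) = 1 / 2 := by
      push_cast
      rw [pow_succ, ← mul_assoc, ← mul_pow]
      norm_num
    have h5 : 1 + ((2 ^ n : ℕ) : ℝ) * -(1 / 2 : ℝ) ^ (n + 1) = 1 / 2 := by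
      rw [mul_neg, h4]
      norm_num
    rw [h5] at h3
    rwa [← sub_eq_add_neg] at h3
  rw [h1]
  calc (1 : ℝ) / 4 = (1 / 2) ^ 2 := by norm_num
    _ ≤ _ := pow_le_pow_left₀ (by norm_num) h2 2

theorem PT_up (n : ℕ) : PT n ≤ 1 / 2 := by
  unfold PT
  have h1 : 1 - (1 / 2 : ℝ) ^ (n + 1) ≤ Real.exp (-(1 / 2 : ℝ) ^ (n + 1)) := by
    have := Real.add_one_le_exp (-(1 / 2 : ℝ) ^ (n + 1))
    linarith
  have h0 : 0 ≤ 1 - (1 / 2 : ℝ) ^ (n + 1) := by
    have : (1 / 2 : ℝ) ^ (n + 1) ≤ 1 := pow_le_one₀ (by norm_num) (by norm_num)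
    linarith
  have h2 : (1 - (1 / 2 : ℝ) ^ (n + 1)) ^ (2 ^ (n + 1)) ≤ Real.exp (-1) := by
    calc _ ≤ Real.exp (-(1 / 2 : ℝ) ^ (n + 1)) ^ (2 ^ (n + 1)) := pow_le_pow_left₀ h0 h1 _
      _ = Real.exp (-1) := by
        rw [← Real.exp_nat_mul]
        congr 1
        push_cast
        rw [mul_neg, ← mul_pow]
        norm_num
  refine h2.trans ?_
  rw [Real.exp_neg, ← one_div, div_le_div_iff₀ (Real.exp_pos _) (by norm_num)]
  have := Real.add_one_le_exp (1 : ℝ)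
  linarith

/-- the function -/
noncomputable abbrev fn (n : ℕ) : (Blk (ka n) → Bool) → ℝ := tribes (ka n)

theorem vari_fn (n : ℕ) : vari (1 / 2) (fn n) =
    4 * (PT n * (1 - ta n) - (PT n * (1 - ta n)) ^ 2) := by
  unfold fn
  rw [vari_tribes, prod_ka]

theorem vari_fn_low (n : ℕ) : 1 / 4 ≤ vari (1 / 2) (fn n) := by
  rw [vari_fn]
  have h1 := PT_low n
  have h2 := PT_up n
  have h3 := ta_pos n
  have h4 := ta_le_half n
  have h5 : 1 / 8 ≤ PT n * (1 - ta n) := by nlinarith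
  have h6 : PT n * (1 - ta n) ≤ 1 / 2 := by nlinarith
  nlinarith

/-- facts about the factors -/
theorem fac_ge (n : ℕ) (U : Blk (ka n) → Bool) (o : Option (Fin (2 ^ (n + 1)))) :
    (1 - (1 / 2 : ℝ) ^ ka n o) ^ 2 ≤ fac (ka n) U o := by
  unfold fac
  have h1 : (1 / 4 : ℝ) ^ ka n o ≤ ∏ w : Fin (ka n o), (if U ⟨o, w⟩ then (1 / 2 : ℝ) else 1 / 4) := by
    calc (1 / 4 : ℝ) ^ ka n o = ∏ _w : Fin (ka n o), (1 / 4 : ℝ) := by
          rw [Finset.prod_const, Finset.card_univ, Fintype.card_fin]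
      _ ≤ _ := Finset.prod_le_prod (fun _ _ => by norm_num) fun w _ => by split_ifs <;> norm_num
  have h2 : (1 / 4 : ℝ) ^ ka n o = ((1 / 2 : ℝ) ^ ka n o) ^ 2 := by
    rw [← pow_mul, mul_comm, pow_mul]
    norm_num
  rw [h2] at h1
  nlinarith

theorem fac_true (n : ℕ) (U : Blk (ka n) → Bool) (o : Option (Fin (2 ^ (n + 1))))
    (h : ∀ w, U ⟨o, w⟩ = true) : fac (ka n) U o = 1 - (1 / 2 : ℝ) ^ ka n o := by
  unfold fac
  have : ∏ w : Fin (ka n o), (if U ⟨o, w⟩ then (1 / 2 : ℝ) else 1 / 4) = (1 / 2) ^ ka n o := by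
    rw [Finset.prod_eq_pow_card (b := (1 / 2 : ℝ)), Finset.card_univ, Fintype.card_fin]
    intro w _
    rw [h w]
    simp
  rw [this]
  ring

theorem fac_false (n : ℕ) (U : Blk (ka n) → Bool) (o : Option (Fin (2 ^ (n + 1))))
    (h : ∀ w, U ⟨o, w⟩ = false) : fac (ka n) U o = (1 - (1 / 2 : ℝ) ^ ka n o) ^ 2 := by
  unfold fac
  have : ∏ w : Fin (ka n o), (if U ⟨o, w⟩ then (1 / 2 : ℝ) else 1 / 4) = (1 / 4) ^ ka n o := by
    rw [Finset.prod_eq_pow_card (b := (1 / 4 : ℝ)), Finset.card_univ, Fintype.card_fin]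
    intro w _
    rw [h w]
    simp
  rw [this]
  have h2 : (1 / 4 : ℝ) ^ ka n o = ((1 / 2 : ℝ) ^ ka n o) ^ 2 := by
    rw [← pow_mul, mul_comm, pow_mul]
    norm_num
  rw [h2]
  ring

theorem clue_eq (n : ℕ) (U : Blk (ka n) → Bool) : clue (1 / 2) (fn n) U =
    4 * (∏ o, fac (ka n) U o - (PT n * (1 - ta n)) ^ 2) / vari (1 / 2) (fn n) := by
  unfold clue fn
  rw [vari_cond, prod_ka]

theorem vari_pos (n : ℕ) : 0 < vari (1 / 2) (fn n) := lt_of_lt_of_le (by norm_num) (vari_fn_low n)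

theorem clue_nonneg (n : ℕ) (U : Blk (ka n) → Bool) : 0 ≤ clue (1 / 2) (fn n) U := by
  rw [clue_eq]
  refine div_nonneg ?_ (vari_pos n).le
  have h1 : (PT n * (1 - ta n)) ^ 2 ≤ ∏ o, fac (ka n) U o := by
    rw [← prod_ka, ← Finset.prod_pow]
    exact Finset.prod_le_prod (fun _ _ => sq_nonneg _) fun o _ => fac_ge n U o
  linarith

theorem clue_empty (n : ℕ) : clue (1 / 2) (fn n) (fun _ => false) = 0 := by
  rw [clue_eq]
  have h1 : ∏ o, fac (ka n) (fun _ => false) o = (PT n * (1 - ta n)) ^ 2 := by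
    rw [← prod_ka, ← Finset.prod_pow]
    exact Finset.prod_congr rfl fun o _ => fac_false n _ o fun _ => rfl
  rw [h1]
  simp

/-- the tribes coordinates -/
def U0 (n : ℕ) : Blk (ka n) → Bool := fun v => v.1.isSome

theorem one_sub_half_pow_nonneg (k : ℕ) : 0 ≤ 1 - (1 / 2 : ℝ) ^ k := by
  have : (1 / 2 : ℝ) ^ k ≤ 1 := pow_le_one₀ (by norm_num) (by norm_num)
  linarith

theorem prod_fac_low (n : ℕ) (U : Blk (ka n) → Bool) (hU : ∀ v, U0 n v = true → U v = true) :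
    PT n * (1 - ta n) ^ 2 ≤ ∏ o, fac (ka n) U o := by
  rw [prod_opt]
  have h1 : ∀ i : Fin (2 ^ (n + 1)), fac (ka n) U (some i) = 1 - (1 / 2 : ℝ) ^ (n + 1) := by
    intro i
    exact fac_true n U (some i) fun w => hU _ rfl
  rw [Finset.prod_congr rfl fun i _ => h1 i, Finset.prod_const, Finset.card_univ, Fintype.card_fin]
  have h2 := fac_ge n U none
  have h3 : (1 - (1 / 2 : ℝ) ^ ka n none) ^ 2 = (1 - ta n) ^ 2 := rfl
  rw [h3] at h2
  rw [mul_comm]
  have h4 : 0 ≤ PT n := by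
    have := PT_low n
    linarith
  exact mul_le_mul_of_nonneg_right h2 h4

theorem clue_low (n : ℕ) (U : Blk (ka n) → Bool) (hU : ∀ v, U0 n v = true → U v = true) :
    1 - 4 * ta n ≤ clue (1 / 2) (fn n) U := by
  rw [clue_eq, le_div_iff₀ (vari_pos n), vari_fn]
  have h0 := prod_fac_low n U hU
  have h1 := PT_low n
  have h2 := PT_up n
  have h3 := ta_pos n
  have h4 := ta_le_half n
  have key : (1 - 4 * ta n) * (4 * (PT n * (1 - ta n) - (PT n * (1 - ta n)) ^ 2)) ≤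
      4 * (PT n * (1 - ta n) ^ 2 - (PT n * (1 - ta n)) ^ 2) := by
    have e : 4 * (PT n * (1 - ta n) ^ 2 - (PT n * (1 - ta n)) ^ 2) -
        (1 - 4 * ta n) * (4 * (PT n * (1 - ta n) - (PT n * (1 - ta n)) ^ 2)) =
        4 * (PT n * (1 - ta n)) * (ta n * (3 - 4 * PT n + 4 * PT n * ta n)) := by ring
    have : 0 ≤ 4 * (PT n * (1 - ta n)) * (ta n * (3 - 4 * PT n + 4 * PT n * ta n)) := by
      have h5 : 0 ≤ 1 - ta n := by linarith
      have h6 : 0 ≤ PT n := by linarith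
      have h7 : 0 ≤ 3 - 4 * PT n + 4 * PT n * ta n := by nlinarith [mul_nonneg h6 h3.le]
      positivity
    linarith
  linarith

theorem card_blk (n : ℕ) : Fintype.card (Blk (ka n)) = 2 ^ (n + 1) * (n + 1) + bigL n := by
  rw [Fintype.card_sigma]
  simp only [Fintype.card_fin]
  rw [Fintype.sum_option]
  simp only [ka]
  rw [Finset.sum_const, Finset.card_univ, Fintype.card_fin, smul_eq_mul]
  ring

theorem card_U0 (n : ℕ) : (Finset.univ.filter (fun v => U0 n v = true)).card = 2 ^ (n + 1) * (n + 1) := by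
  rw [Finset.card_filter, Fintype.sum_sigma, Fintype.sum_option]
  have h1 : ∀ i : Fin (2 ^ (n + 1)), (∑ w : Fin (ka n (some i)),
      if U0 n ⟨some i, w⟩ = true then 1 else 0) = n + 1 := by
    intro i
    have : ∀ w : Fin (ka n (some i)), (if U0 n ⟨some i, w⟩ = true then 1 else 0) = 1 := fun w => if_pos rfl
    rw [Finset.sum_congr rfl fun w _ => this w, Finset.sum_const, Finset.card_univ, Fintype.card_fin,
      smul_eq_mul, mul_one]
    rfl
  have h2 : (∑ w : Fin (ka n none), if U0 n ⟨none, w⟩ = true then 1 else 0) = 0 := by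
    refine Finset.sum_eq_zero fun w _ => if_neg ?_
    simp [U0]
  rw [h2, Finset.sum_congr rfl fun i _ => h1 i, Finset.sum_const, Finset.card_univ, Fintype.card_fin,
    smul_eq_mul, zero_add]

theorem relSize_U0 (n : ℕ) : relSize (U0 n) ≤ 1 / ((n : ℝ) + 2) ^ (2 ^ (n + 1) * (n + 1) + 2) := by
  unfold relSize
  rw [card_U0, card_blk]
  have hL : 0 < bigL n := by
    have := bigL_ge n
    omega
  have hpos : (0 : ℝ) < ((n : ℝ) + 2) ^ (2 ^ (n + 1) * (n + 1) + 2) := by positivity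
  rw [div_le_div_iff₀ (by exact_mod_cast (by omega : 0 < 2 ^ (n + 1) * (n + 1) + bigL n)) hpos]
  have : (bigL n : ℝ) = ((2 ^ (n + 1) * (n + 1) : ℕ) : ℝ) * ((n : ℝ) + 2) ^ (2 ^ (n + 1) * (n + 1) + 2) := by
    unfold bigL
    push_cast
    ring
  rw [← this]
  push_cast
  have : (0 : ℝ) ≤ 2 ^ (n + 1) * ((n : ℝ) + 1) := by positivity
  linarith

theorem relSize_nonneg {V : Type} [Fintype V] [DecidableEq V] (U : V → Bool) : 0 ≤ relSize U := by
  unfold relSize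
  positivity

theorem bddBelow_cp (n : ℕ) (s : ℝ) :
    BddBelow {u : ℝ | ∃ U : Blk (ka n) → Bool, relSize U ≤ u ∧ s ≤ clue (1 / 2) (fn n) U} :=
  ⟨0, fun _ ⟨U, h1, _⟩ => (relSize_nonneg U).trans h1⟩

theorem cp_le (n : ℕ) (δ : ℝ) (h : δ ≤ 1 - 4 * ta n) :
    clueProfile (1 / 2) (fn n) δ ≤ 1 / ((n : ℝ) + 2) ^ (2 ^ (n + 1) * (n + 1) + 2) := by
  unfold clueProfile
  exact csInf_le (bddBelow_cp n δ) ⟨U0 n, relSize_U0 n, h.trans (clue_low n _ fun v hv => hv)⟩

theorem cp_pos (n : ℕ) (δ : ℝ) (hδ : 0 < δ) (h : δ ≤ 1 - 4 * ta n) :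
    0 < clueProfile (1 / 2) (fn n) δ := by
  have hcard : (0 : ℝ) < Fintype.card (Blk (ka n)) := by
    rw [card_blk]
    have := bigL_ge n
    exact_mod_cast (by omega : 0 < 2 ^ (n + 1) * (n + 1) + bigL n)
  have h1 : 1 / (Fintype.card (Blk (ka n)) : ℝ) ≤ clueProfile (1 / 2) (fn n) δ := by
    unfold clueProfile
    refine le_csInf ⟨_, U0 n, le_rfl, h.trans (clue_low n _ fun v hv => hv)⟩ ?_
    rintro u ⟨U, hU1, hU2⟩
    refine le_trans ?_ hU1
    unfold relSize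
    refine div_le_div_of_nonneg_right ?_ hcard.le
    by_contra hcon
    have h0 : (Finset.univ.filter (fun v => U v = true)).card = 0 := by
      have : ((Finset.univ.filter (fun v => U v = true)).card : ℝ) < 1 := not_le.1 hcon
      have : (Finset.univ.filter (fun v => U v = true)).card < 1 := by exact_mod_cast this
      omega
    rw [Finset.card_eq_zero, Finset.filter_eq_empty_iff] at h0
    have hU : U = fun _ => false := by
      funext v
      have := h0 (Finset.mem_univ v)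
      simpa using this
    rw [hU, clue_empty] at hU2
    linarith
  exact lt_of_lt_of_le (by positivity) h1

theorem meanClue_low (n : ℕ) (δ : ℝ) (hδ0 : 0 ≤ δ) (hδ1 : δ ≤ 1) :
    (1 - 4 * ta n) * δ ^ (2 ^ (n + 1) * (n + 1)) ≤ meanClue (1 / 2) (fn n) δ := by
  unfold meanClue
  have h1 : ex δ (fun U : Blk (ka n) → Bool => ∏ v, (if U0 n v then bv (U v) else 1)) =
      δ ^ (2 ^ (n + 1) * (n + 1)) := by
    rw [ex_prod δ (fun v x => if U0 n v then bv x else 1)]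
    have h2 : ∀ v : Blk (ka n), (δ * (if U0 n v = true then bv true else 1) +
        (1 - δ) * (if U0 n v = true then bv false else 1)) = if U0 n v = true then δ else 1 := by
      intro v
      by_cases h : U0 n v = true
      · simp only [h, if_true, bv]
        simp
      · simp only [h]
        simp
    rw [Finset.prod_congr rfl fun v _ => h2 v, Finset.prod_ite, Finset.prod_const, Finset.prod_const_one,
      mul_one, card_U0]
  rw [← h1, ← ex_mul]
  refine ex_mono δ hδ0 hδ1 fun U => ?_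
  by_cases hU : ∀ v, U0 n v = true → U v = true
  · have : ∏ v, (if U0 n v then bv (U v) else 1) = 1 := by
      refine Finset.prod_eq_one fun v _ => ?_
      by_cases h : U0 n v = true
      · rw [if_pos h, hU v h]
        rfl
      · rw [if_neg h]
    rw [this, mul_one]
    exact clue_low n U hU
  · push Not at hU
    obtain ⟨v, hv, hv2⟩ := hU
    have : ∏ v, (if U0 n v then bv (U v) else 1) = 0 := by
      refine Finset.prod_eq_zero (Finset.mem_univ v) ?_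
      rw [if_pos hv]
      unfold bv
      rw [if_neg hv2]
    rw [this, mul_zero]
    exact clue_nonneg n U

theorem noise_bound (n : ℕ) (ε : ℝ) (h0 : 0 < ε) (h1 : ε < 1) :
    |noiseCov (1 / 2) (fn n) ε| ≤ 4 * ((1 - ε / 2) ^ (n + 1) + (1 - ε / 2) ^ (n + 1)) := by
  unfold fn
  rw [noiseCov_tribes, abs_mul, abs_of_pos (by norm_num : (0 : ℝ) < 4)]
  refine mul_le_mul_of_nonneg_left ?_ (by norm_num)
  rw [← Finset.prod_pow]
  have hb : (1 - ε) / 2 + ε / 4 = 1 / 2 * (1 - ε / 2) := by ring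
  rw [hb]
  set b : ℝ := 1 / 2 * (1 - ε / 2) with hbdef
  have hb0 : 0 < b := by
    rw [hbdef]
    linarith
  have hb1 : 1 / 4 ≤ b := by
    rw [hbdef]
    linarith
  have hb2 : b ≤ 1 / 2 := by
    rw [hbdef]
    linarith
  have hab : ∀ k : ℕ, ((1 / 2 : ℝ) ^ k) ^ 2 ≤ b ^ k := by
    intro k
    rw [← pow_mul, mul_comm k 2, pow_mul]
    exact pow_le_pow_left₀ (by norm_num) (by linarith) k
  have hba : ∀ k : ℕ, b ^ k ≤ (1 / 2 : ℝ) ^ k := fun k => pow_le_pow_left₀ hb0.le hb2 k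
  have hx : ∀ k : ℕ, |1 - 2 * (1 / 2 : ℝ) ^ k + b ^ k| ≤ 1 := by
    intro k
    have e1 := hab k
    have e2 := hba k
    have e3 : (0 : ℝ) < (1 / 2) ^ k := by positivity
    have e4 : (1 / 2 : ℝ) ^ k ≤ 1 := pow_le_one₀ (by norm_num) (by norm_num)
    rw [abs_le]
    constructor
    · nlinarith [sq_nonneg (1 - (1 / 2 : ℝ) ^ k)]
    · linarith
  have hy : ∀ k : ℕ, |(1 - (1 / 2 : ℝ) ^ k) ^ 2| ≤ 1 := by
    intro k
    have e3 : (0 : ℝ) < (1 / 2) ^ k := by positivity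
    have e4 : (1 / 2 : ℝ) ^ k ≤ 1 := pow_le_one₀ (by norm_num) (by norm_num)
    rw [abs_of_nonneg (sq_nonneg _)]
    nlinarith
  refine (abs_prod_sub_prod _ _ _ (fun o _ => hx _) (fun o _ => hy _)).trans ?_
  have hterm : ∀ k : ℕ, |(1 - 2 * (1 / 2 : ℝ) ^ k + b ^ k) - (1 - (1 / 2 : ℝ) ^ k) ^ 2| ≤ b ^ k := by
    intro k
    have e1 := hab k
    have e2 : (1 - 2 * (1 / 2 : ℝ) ^ k + b ^ k) - (1 - (1 / 2 : ℝ) ^ k) ^ 2 = b ^ k - ((1 / 2 : ℝ) ^ k) ^ 2 := by
      ring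
    rw [e2, abs_of_nonneg (by linarith)]
    have : 0 ≤ ((1 / 2 : ℝ) ^ k) ^ 2 := sq_nonneg _
    linarith
  refine (Finset.sum_le_sum fun o _ => hterm _).trans ?_
  rw [Fintype.sum_option]
  simp only [ka]
  rw [Finset.sum_const, Finset.card_univ, Fintype.card_fin, nsmul_eq_mul]
  have hε : 0 < 1 - ε / 2 := by linarith
  have h3 : ((2 ^ (n + 1) : ℕ) : ℝ) * b ^ (n + 1) = (1 - ε / 2) ^ (n + 1) := by
    rw [hbdef, mul_pow, ← mul_assoc]
    push_cast
    rw [← mul_pow]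
    norm_num
  have h4 : b ^ bigL n ≤ (1 - ε / 2) ^ (n + 1) := by
    calc b ^ bigL n ≤ b ^ (n + 1) := pow_le_pow_of_le_one hb0.le (by linarith) (bigL_ge n)
      _ ≤ (1 - ε / 2) ^ (n + 1) := pow_le_pow_left₀ hb0.le (by rw [hbdef]; linarith) _
  rw [h3]
  linarith

/-- the sequence -/
noncomputable def seq : MonotoneSequence where
  V n := Blk (ka n)
  fin n := inferInstance
  dec n := inferInstance
  p _ := 1 / 2
  f n := fn n
  p_pos _ := by norm_num
  p_lt _ := by norm_num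
  card_tendsto := by
    refine tendsto_atTop_mono (fun n => ?_) tendsto_id
    rw [card_blk]
    have := bigL_ge n
    simp only [id]
    omega
  boolean n ω := by
    unfold fn tribes
    rw [noBlock_eq]
    split_ifs
    · left
      norm_num
    · right
      norm_num
  nonconst n := by
    refine ⟨fun _ => true, fun _ => false, ?_⟩
    unfold fn tribes
    rw [noBlock_eq, noBlock_eq, if_pos ⟨none, fun _ => rfl⟩, if_neg]
    · norm_num
    · push Not
      intro o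
      exact ⟨⟨0, ka_pos n o⟩, by simp⟩
  mono n ω ω' h := by
    unfold fn tribes
    rw [noBlock_eq, noBlock_eq]
    by_cases h1 : ∃ o, ∀ w : Fin (ka n o), ω ⟨o, w⟩ = true
    · have h2 : ∃ o, ∀ w : Fin (ka n o), ω' ⟨o, w⟩ = true := by
        obtain ⟨o, ho⟩ := h1
        exact ⟨o, fun w => h _ (ho w)⟩
      rw [if_pos h1, if_pos h2]
    · rw [if_neg h1]
      split_ifs <;> norm_num

theorem seq_noise : NoiseSensitive seq := by
  intro ε h0 h1
  have hlim : Tendsto (fun n : ℕ => 4 * ((1 - ε / 2) ^ (n + 1) + (1 - ε / 2) ^ (n + 1))) atTop (𝓝 0) := by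
    have h2 : Tendsto (fun n : ℕ => (1 - ε / 2) ^ (n + 1)) atTop (𝓝 0) :=
      (tendsto_pow_atTop_nhds_zero_of_lt_one (by linarith) (by linarith)).comp (tendsto_add_atTop_nat 1)
    simpa using (h2.add h2).const_mul 4
  exact squeeze_zero_norm (fun n => noise_bound n ε h0 h1) hlim

theorem seq_pivotal (n : ℕ) (v : Blk (ka n)) :
    ∃ ω : Blk (ka n) → Bool, fn n (Function.update ω v true) ≠ fn n (Function.update ω v false) := by
  refine ⟨fun x => decide (x.1 = v.1), ?_⟩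
  unfold fn tribes
  rw [noBlock_eq, noBlock_eq, if_pos, if_neg]
  · norm_num
  · push Not
    intro o
    by_cases ho : o = v.1
    · subst ho
      exact ⟨v.2, by simp⟩
    · refine ⟨⟨0, ka_pos n o⟩, ?_⟩
      rw [Function.update_of_ne]
      · simpa using ho
      · intro e
        exact ho (congrArg Sigma.fst e)
  · refine ⟨v.1, fun w => ?_⟩
    by_cases h : (⟨v.1, w⟩ : Blk (ka n)) = v
    · rw [h, Function.update_self]
    · rw [Function.update_of_ne h]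
      simp

theorem ta_tendsto : Tendsto ta atTop (𝓝 0) := by
  have h2 : Tendsto (fun n : ℕ => (1 / 2 : ℝ) ^ (n + 1)) atTop (𝓝 0) :=
    (tendsto_pow_atTop_nhds_zero_of_lt_one (by norm_num) (by norm_num)).comp (tendsto_add_atTop_nat 1)
  exact squeeze_zero (fun n => (ta_pos n).le) ta_le h2

theorem ratio_bound (δ : ℝ) (h0 : 0 < δ) (h1 : δ < 1) : ∀ᶠ n : ℕ in atTop,
    0 < clueProfile (1 / 2) (fn n) δ ∧
    clueProfile (1 / 2) (fn n) δ * (((n : ℝ) + 2) ^ 2 / 2) ≤ meanClue (1 / 2) (fn n) δ := by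
  have e1 : ∀ᶠ n in atTop, ta n < (1 - δ) / 4 := ta_tendsto.eventually (gt_mem_nhds (by linarith))
  have e2 : ∀ᶠ n in atTop, ta n < 1 / 8 := ta_tendsto.eventually (gt_mem_nhds (by norm_num))
  have e3 : ∀ᶠ n : ℕ in atTop, 1 / δ ≤ (n : ℝ) :=
    tendsto_natCast_atTop_atTop.eventually_ge_atTop (1 / δ)
  filter_upwards [e1, e2, e3] with n h2 h3 h4
  have h5 : δ ≤ 1 - 4 * ta n := by linarith
  refine ⟨cp_pos n δ h0 h5, ?_⟩
  have h6 := cp_le n δ h5
  have h7 := meanClue_low n δ h0.le h1.le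
  set K := 2 ^ (n + 1) * (n + 1) with hK
  have hn2 : (0 : ℝ) < (n : ℝ) + 2 := by positivity
  have h8 : 1 / ((n : ℝ) + 2) ^ K ≤ δ ^ K := by
    rw [div_le_iff₀ (by positivity), ← mul_pow]
    refine one_le_pow₀ ?_
    rw [div_le_iff₀ h0] at h4
    nlinarith
  have h9 : δ ^ K / 2 ≤ (1 - 4 * ta n) * δ ^ K := by
    have : 0 < δ ^ K := by positivity
    nlinarith
  calc clueProfile (1 / 2) (fn n) δ * (((n : ℝ) + 2) ^ 2 / 2)
      ≤ 1 / ((n : ℝ) + 2) ^ (K + 2) * (((n : ℝ) + 2) ^ 2 / 2) :=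
        mul_le_mul_of_nonneg_right h6 (by positivity)
    _ = 1 / ((n : ℝ) + 2) ^ K / 2 := by
        rw [pow_add]
        field_simp
    _ ≤ δ ^ K / 2 := div_le_div_of_nonneg_right h8 (by norm_num)
    _ ≤ _ := h9.trans h7

end Pool.Agent.X145.Clue
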