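import Pool.Agent.X145.Clue.Basic

set_option autoImplicit false
open Filter Topology

namespace Pool.Agent.X145.Clue

section tribes
variable {ι : Type} [Fintype ι] [DecidableEq ι] (κ : ι → ℕ)

/-- coordinates: blocks of sizes `κ i` -/
abbrev Blk : Type := Σ i : ι, Fin (κ i)

/-- value of a bit -/
noncomputable def bv (x : Bool) : ℝ := if x then 1 else 0

/-- indicator that no block is all `true` -/
noncomputable def noBlock (ω : Blk κ → Bool) : ℝ := ∏ i, (1 - ∏ w : Fin (κ i), bv (ω ⟨i, w⟩))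

/-- the tribes function: `1` iff some block is all `true` -/
noncomputable def tribes (ω : Blk κ → Bool) : ℝ := 1 - 2 * noBlock κ ω

theorem bv_prod {n : ℕ} (x : Fin n → Bool) : (∏ w, bv (x w)) = if ∀ w, x w = true then 1 else 0 := by
  split_ifs with h
  · exact Finset.prod_eq_one fun w _ => by rw [h w]; rfl
  · push Not at h
    obtain ⟨w, hw⟩ := h
    refine Finset.prod_eq_zero (Finset.mem_univ w) ?_
    unfold bv
    rw [if_neg hw]

theorem noBlock_eq (ω : Blk κ → Bool) :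
    noBlock κ ω = if ∃ i, ∀ w : Fin (κ i), ω ⟨i, w⟩ = true then 0 else 1 := by
  unfold noBlock
  split_ifs with h
  · obtain ⟨i, hi⟩ := h
    refine Finset.prod_eq_zero (Finset.mem_univ i) ?_
    rw [bv_prod, if_pos hi]
    norm_num
  · push Not at h
    refine Finset.prod_eq_one fun i _ => ?_
    rw [bv_prod, if_neg]
    · norm_num
    · push Not
      exact h i

/-- conditional version -/
noncomputable def cb (U : Blk κ → Bool) (v : Blk κ) (x : Bool) : ℝ := if U v then bv x else 1 / 2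

/-- conditional expectation of `noBlock` -/
noncomputable def cG (U ω : Blk κ → Bool) : ℝ := ∏ i, (1 - ∏ w : Fin (κ i), cb κ U ⟨i, w⟩ (ω ⟨i, w⟩))

theorem ex_noBlock_mix (U ω : Blk κ → Bool) :
    ex (1 / 2) (fun η => noBlock κ (mix U ω η)) = cG κ U ω := by
  unfold noBlock mix
  rw [ex_blocks (1 / 2) (fun i η => 1 - ∏ w : Fin (κ i), bv (if U ⟨i, w⟩ then ω ⟨i, w⟩ else η w))]
  unfold cG
  refine Finset.prod_congr rfl fun i _ => ?_
  rw [ex_sub, ex_const, ex_prod (1 / 2) (fun w x => bv (if U ⟨i, w⟩ then ω ⟨i, w⟩ else x))]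
  congr 1
  refine Finset.prod_congr rfl fun w _ => ?_
  unfold cb
  by_cases h : U ⟨i, w⟩ = true
  · simp only [h, if_true]
    ring
  · simp only [h, if_false, bv, Bool.false_eq_true, if_true]
    norm_num

theorem cond_tribes (U ω : Blk κ → Bool) :
    cond (1 / 2) (tribes κ) U ω = 1 - 2 * cG κ U ω := by
  unfold cond tribes
  rw [ex_sub, ex_const, ex_mul, ex_noBlock_mix]

/-- the second moment factor -/
noncomputable def fac (U : Blk κ → Bool) (i : ι) : ℝ :=
  1 - 2 * (1 / 2) ^ κ i + ∏ w : Fin (κ i), (if U ⟨i, w⟩ then (1 / 2 : ℝ) else 1 / 4)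

theorem ex_cG (U : Blk κ → Bool) : ex (1 / 2) (cG κ U) = ∏ i, (1 - (1 / 2) ^ κ i) := by
  unfold cG
  rw [ex_blocks (1 / 2) (fun i x => 1 - ∏ w : Fin (κ i), cb κ U ⟨i, w⟩ (x w))]
  refine Finset.prod_congr rfl fun i _ => ?_
  rw [ex_sub, ex_const, ex_prod (1 / 2) (fun w x => cb κ U ⟨i, w⟩ x)]
  congr 1
  rw [Finset.prod_eq_pow_card (b := (1 / 2 : ℝ)), Finset.card_univ, Fintype.card_fin]
  intro w _
  unfold cb bv
  by_cases h : U ⟨i, w⟩ = true
  · simp only [h, if_true]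
    norm_num
  · simp only [h]
    norm_num

theorem ex_cG_sq (U : Blk κ → Bool) : ex (1 / 2) (fun ω => cG κ U ω ^ 2) = ∏ i, fac κ U i := by
  have h1 : ∀ ω, cG κ U ω ^ 2 = ∏ i, (1 - ∏ w : Fin (κ i), cb κ U ⟨i, w⟩ (ω ⟨i, w⟩)) ^ 2 := by
    intro ω
    unfold cG
    rw [Finset.prod_pow]
  rw [ex_congr _ h1, ex_blocks (1 / 2) (fun i x => (1 - ∏ w : Fin (κ i), cb κ U ⟨i, w⟩ (x w)) ^ 2)]
  refine Finset.prod_congr rfl fun i _ => ?_
  have h2 : ∀ x : Fin (κ i) → Bool, (1 - ∏ w, cb κ U ⟨i, w⟩ (x w)) ^ 2 =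
      1 - 2 * (∏ w, cb κ U ⟨i, w⟩ (x w)) + ∏ w, (cb κ U ⟨i, w⟩ (x w)) ^ 2 := by
    intro x
    rw [Finset.prod_pow]
    ring
  rw [ex_congr _ h2, ex_add, ex_sub, ex_const, ex_mul, ex_prod (1 / 2) (fun w x => cb κ U ⟨i, w⟩ x),
    ex_prod (1 / 2) (fun w x => (cb κ U ⟨i, w⟩ x) ^ 2)]
  unfold fac
  congr 1
  · congr 1
    congr 1
    rw [Finset.prod_eq_pow_card (b := (1 / 2 : ℝ)), Finset.card_univ, Fintype.card_fin]
    intro w _
    unfold cb bv
    by_cases h : U ⟨i, w⟩ = true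
    · simp only [h, if_true]
      norm_num
    · simp only [h]
      norm_num
  · refine Finset.prod_congr rfl fun w _ => ?_
    unfold cb bv
    by_cases h : U ⟨i, w⟩ = true
    · simp only [h, if_true]
      norm_num
    · simp only [h]
      norm_num

theorem vari_affine {V : Type} [Fintype V] [DecidableEq V] (p : ℝ) (g : (V → Bool) → ℝ) :
    vari p (fun ω => 1 - 2 * g ω) = 4 * (ex p (fun ω => g ω ^ 2) - ex p g ^ 2) := by
  unfold vari
  have h : ∀ ω, (1 - 2 * g ω) ^ 2 = 1 - 4 * g ω + 4 * g ω ^ 2 := fun ω => by ring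
  rw [ex_congr p h, ex_add, ex_sub, ex_sub, ex_const, ex_mul, ex_mul, ex_mul]
  ring

theorem vari_cond (U : Blk κ → Bool) : vari (1 / 2) (cond (1 / 2) (tribes κ) U) =
    4 * (∏ i, fac κ U i - (∏ i, (1 - (1 / 2) ^ κ i)) ^ 2) := by
  have h : cond (1 / 2) (tribes κ) U = fun ω => 1 - 2 * cG κ U ω := by
    funext ω
    exact cond_tribes κ U ω
  rw [h, vari_affine, ex_cG_sq, ex_cG]

theorem cG_true (ω : Blk κ → Bool) : cG κ (fun _ => true) ω = noBlock κ ω := by
  unfold cG noBlock cb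
  simp

theorem ex_noBlock : ex (1 / 2) (noBlock κ) = ∏ i, (1 - (1 / 2) ^ κ i) := by
  rw [← ex_cG κ (fun _ => true)]
  exact ex_congr _ fun ω => (cG_true κ ω).symm

theorem noBlock_sq (ω : Blk κ → Bool) : noBlock κ ω ^ 2 = noBlock κ ω := by
  rw [noBlock_eq]
  split_ifs <;> norm_num

theorem vari_tribes : vari (1 / 2) (tribes κ) =
    4 * (∏ i, (1 - (1 / 2) ^ κ i) - (∏ i, (1 - (1 / 2 : ℝ) ^ κ i)) ^ 2) := by
  have h : tribes κ = fun ω => 1 - 2 * noBlock κ ω := rfl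
  rw [h, vari_affine, ex_congr _ (noBlock_sq κ), ex_noBlock]

/-- the noise covariance -/
theorem noiseCov_tribes (ε : ℝ) : noiseCov (1 / 2) (tribes κ) ε =
    4 * (∏ i, (1 - 2 * (1 / 2) ^ κ i + ((1 - ε) / 2 + ε / 4) ^ κ i) -
      (∏ i, (1 - (1 / 2 : ℝ) ^ κ i)) ^ 2) := by
  unfold noiseCov
  have hE : ex (1 / 2) (tribes κ) = 1 - 2 * ∏ i, (1 - (1 / 2 : ℝ) ^ κ i) := by
    unfold tribes
    rw [ex_sub, ex_const, ex_mul, ex_noBlock]
  have h1 : ∀ S : Blk κ → Bool, ex (1 / 2) (fun ω => ex (1 / 2) (fun η => tribes κ ω * tribes κ (mix S ω η)))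
      = 1 - 4 * (∏ i, (1 - (1 / 2 : ℝ) ^ κ i)) + 4 * ∏ i, fac κ S i := by
    intro S
    have h2 : ∀ ω, ex (1 / 2) (fun η => tribes κ ω * tribes κ (mix S ω η)) =
        1 - 2 * noBlock κ ω - 2 * cG κ S ω + 4 * (noBlock κ ω * cG κ S ω) := by
      intro ω
      rw [ex_mul]
      have h3 : ex (1 / 2) (fun η => tribes κ (mix S ω η)) = 1 - 2 * cG κ S ω := by
        unfold tribes
        rw [ex_sub, ex_const, ex_mul, ex_noBlock_mix]
      rw [h3]
      unfold tribes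
      ring
    rw [ex_congr _ h2, ex_add, ex_sub, ex_sub, ex_const, ex_mul, ex_mul, ex_mul, ex_noBlock, ex_cG]
    have h4 : ex (1 / 2) (fun ω => noBlock κ ω * cG κ S ω) = ∏ i, fac κ S i := by
      have h5 : ∀ ω, noBlock κ ω * cG κ S ω = ∏ i, ((1 - ∏ w : Fin (κ i), bv (ω ⟨i, w⟩)) *
          (1 - ∏ w : Fin (κ i), cb κ S ⟨i, w⟩ (ω ⟨i, w⟩))) := by
        intro ω
        unfold noBlock cG
        rw [Finset.prod_mul_distrib]
      rw [ex_congr _ h5, ex_blocks (1 / 2) (fun i x => (1 - ∏ w : Fin (κ i), bv (x w)) *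
          (1 - ∏ w : Fin (κ i), cb κ S ⟨i, w⟩ (x w)))]
      refine Finset.prod_congr rfl fun i _ => ?_
      have h6 : ∀ x : Fin (κ i) → Bool, (1 - ∏ w : Fin (κ i), bv (x w)) *
          (1 - ∏ w : Fin (κ i), cb κ S ⟨i, w⟩ (x w)) =
          1 - (∏ w, bv (x w)) - (∏ w, cb κ S ⟨i, w⟩ (x w)) + ∏ w, (bv (x w) * cb κ S ⟨i, w⟩ (x w)) := by
        intro x
        rw [Finset.prod_mul_distrib]
        ring
      rw [ex_congr _ h6, ex_add, ex_sub, ex_sub, ex_const, ex_prod (1 / 2) (fun w x => bv x),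
        ex_prod (1 / 2) (fun w x => cb κ S ⟨i, w⟩ x),
        ex_prod (1 / 2) (fun w x => bv x * cb κ S ⟨i, w⟩ x)]
      unfold fac
      have e1 : ∏ _w : Fin (κ i), (1 / 2 * bv true + (1 - 1 / 2) * bv false) = (1 / 2 : ℝ) ^ κ i := by
        rw [Finset.prod_eq_pow_card (b := (1 / 2 : ℝ)), Finset.card_univ, Fintype.card_fin]
        intro w _
        unfold bv
        norm_num
      have e2 : ∏ w : Fin (κ i), (1 / 2 * cb κ S ⟨i, w⟩ true + (1 - 1 / 2) * cb κ S ⟨i, w⟩ false)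
          = (1 / 2 : ℝ) ^ κ i := by
        rw [Finset.prod_eq_pow_card (b := (1 / 2 : ℝ)), Finset.card_univ, Fintype.card_fin]
        intro w _
        unfold cb bv
        by_cases h : S ⟨i, w⟩ = true
        · simp only [h, if_true]
          norm_num
        · simp only [h]
          norm_num
      have e3 : ∏ w : Fin (κ i), (1 / 2 * (bv true * cb κ S ⟨i, w⟩ true) +
          (1 - 1 / 2) * (bv false * cb κ S ⟨i, w⟩ false)) =
          ∏ w : Fin (κ i), (if S ⟨i, w⟩ then (1 / 2 : ℝ) else 1 / 4) := by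
        refine Finset.prod_congr rfl fun w _ => ?_
        unfold cb bv
        by_cases h : S ⟨i, w⟩ = true
        · simp only [h, if_true]
          norm_num
        · simp only [h]
          norm_num
      rw [e1, e2, e3]
      ring
    rw [h4]
    ring
  rw [ex_congr _ h1, ex_add, ex_const, ex_mul, hE]
  have h7 : ex (1 - ε) (fun S : Blk κ → Bool => ∏ i, fac κ S i) =
      ∏ i, (1 - 2 * (1 / 2) ^ κ i + ((1 - ε) / 2 + ε / 4) ^ κ i) := by
    unfold fac
    rw [ex_blocks (1 - ε) (fun i x => 1 - 2 * (1 / 2) ^ κ i +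
      ∏ w : Fin (κ i), (if x w then (1 / 2 : ℝ) else 1 / 4))]
    refine Finset.prod_congr rfl fun i _ => ?_
    rw [ex_add, ex_const, ex_prod (1 - ε) (fun w x => if x then (1 / 2 : ℝ) else 1 / 4)]
    congr 1
    rw [Finset.prod_eq_pow_card (b := (1 - ε) / 2 + ε / 4), Finset.card_univ, Fintype.card_fin]
    intro w _
    simp only [if_true, Bool.false_eq_true, if_false]
    ring
  rw [h7]
  ring

end tribes

end Pool.Agent.X145.Clue
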